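import Pool.Agent.Lib.MP_6cbb02_lc.Main

set_option autoImplicit false

namespace Pool.Agent.Results.MP_6cbb02_lc.RankDefinable

open Pool.Agent.Lib.MP_6cbb02_lc

/-- The family of countable `Π⁰₁` classes of Cantor-Bendixson rank `α` is first-order definable in
the lattice of `Π⁰₁` classes exactly when `α` is finite or at least the Church-Kleene ordinal, and
it is invariant under automorphisms for every `α`. -/
theorem result (α : Ordinal.{0}) :
    (IsDefinable (rankFamily α) ↔ α < Ordinal.omega0 ∨ omega1CK ≤ α) ∧
      IsInvariant (rankFamily α) :=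
  ⟨isDefinable_rankFamily_iff α, isInvariant_rankFamily α⟩

end Pool.Agent.Results.MP_6cbb02_lc.RankDefinable
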